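import Mathlib
import Pool.Agent.H336.PR.ExtLift

/-!
# Lifting and splitting over virtually polycyclic kernels

`MP_305fdd_al`, Q1, asks whether the lattices in `PSL(2, ℝ)` and `PSL(2, ℂ)` are profinitely rigid; the
free groups of finite rank are among the lattices in `PSL(2, ℝ)` and their subgroups.

Let `Λ` be a finitely generated group. `Projective 1 Λ` says that homomorphisms of `Λ` to finite
groups lift through surjections of finite groups (the profinite completion is projective). It depends
only on the finite quotients and holds for all `Λ` with the same finite quotients as a free group. We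
show that it implies the lifting property of free groups for all surjections `U → B` with virtually
polycyclic kernel, provided that the quotients of `U` by the normal subgroups in the kernel are
residually finite, in particular for all surjections of virtually polycyclic groups. If `Λ` is also
residually finite, its profinite completion is projective if and only if the extensions of `Λ` by
virtually polycyclic groups split as soon as the obvious necessary condition is satisfied.

Steps. A finite kernel: a normal subgroup of finite index which does not meet the kernel reduces the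
lifting problem to finite groups. An abelian kernel `M`: the lifts to be found are the solutions of an
infinite system of inhomogeneous linear equations with unknowns in `M`, which has solutions modulo
`n M` for all `n`, and therefore has a solution. The general case follows along a characteristic
series. Hirsch's theorem on the residual finiteness of virtually polycyclic groups is proved on the
way, by Noetherian induction.
-/

namespace Pool.Agent.Results.MP_305fdd_al.PolycyclicKernels

open Function Pool.Agent.H336.PR

/-- Homomorphisms from `Λ` lift through all surjections `q : U → B` with virtually polycyclic kernel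
for which the quotients of `U` by normal subgroups in the kernel are residually finite. -/
def LiftsKernels (Λ : Type) [Group Λ] : Prop :=
  ∀ (U B : Type) [Group U] [Group B] (q : U →* B), Surjective q → VPC q.ker → QuotRF q →
    ∀ φ : Λ →* B, ∃ ψ : Λ →* U, q.comp ψ = φ

/-- Homomorphisms from `Λ` lift through all surjections of virtually polycyclic groups. -/
def LiftsPolycyclic (Λ : Type) [Group Λ] : Prop :=
  ∀ (U B : Type) [Group U] [Group B] (q : U →* B), Surjective q → VPC U →
    ∀ φ : Λ →* B, ∃ ψ : Λ →* U, q.comp ψ = φ

theorem vpc_finite (G : Type) [Group G] [Finite G] : VPC G := by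
  refine ⟨fun H => ?_, ⊥, inferInstance, inferInstance⟩
  rw [← Group.fg_iff_subgroup_fg]
  infer_instance

theorem rf_quot_finite {E : Type} [Group E] (hE : Group.ResiduallyFinite E) (L : Subgroup E)
    [L.Normal] [Finite L] : Group.ResiduallyFinite (E ⧸ L) := by
  rw [Group.residuallyFinite_iff_exists_finiteIndex]
  intro g hg
  obtain ⟨x, rfl⟩ := QuotientGroup.mk_surjective g
  have hx : x ∉ L := fun h => hg ((QuotientGroup.eq_one_iff x).2 h)
  obtain ⟨V, hV1, hV2, hV3⟩ := rf_avoid (Set.range fun l : L => x * (l : E)) (Set.finite_range _) (by
    rintro ⟨l, hl⟩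
    apply hx
    have : x = (l : E)⁻¹ := eq_inv_of_mul_eq_one_left hl
    rw [this]
    exact L.inv_mem l.2)
  refine ⟨V.map (QuotientGroup.mk' L), ?_, ?_⟩
  · constructor
    intro h0
    have := V.index_map_dvd (QuotientGroup.mk'_surjective L)
    rw [h0, zero_dvd_iff] at this
    exact hV2.index_ne_zero this
  · rintro ⟨v, hv, hvx⟩
    have h1 : v⁻¹ * x ∈ L := QuotientGroup.eq.1 hvx
    have h2 : x * (v⁻¹ * x)⁻¹ ∉ V := by
      refine hV3 _ ⟨⟨(v⁻¹ * x)⁻¹, L.inv_mem h1⟩, rfl⟩
    apply h2
    rw [mul_inv_rev, inv_inv, mul_inv_cancel_left]
    exact hv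

theorem projective_free {X : Type} (N : ℕ) : Projective N (FreeGroup X) := by
  intro G Q _ _ _ π hπ _ φ
  choose g hg using hπ
  refine ⟨FreeGroup.lift fun x => g (φ (FreeGroup.of x)), ?_⟩
  ext x
  simp [hg]

theorem result :
    -- lifting through finite, virtually polycyclic groups and with virtually polycyclic kernel
    (∀ (Λ : Type) [Group Λ], Group.FG Λ →
      [Projective 1 Λ, LiftsKernels Λ, LiftsPolycyclic Λ].TFAE) ∧
    -- splitting of extensions
    (∀ (Λ : Type) [Group Λ], Group.FG Λ → Group.ResiduallyFinite Λ →
      (Projective 1 Λ ↔ ∀ (E : Type) [Group E] (q : E →* Λ), Surjective q → VPC q.ker →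
        ((∃ s : Λ →* E, q.comp s = MonoidHom.id Λ) ↔ QuotRF q))) ∧
    -- the groups with the same finite quotients as a free group
    (∀ (n : ℕ) (Λ : Type) [Group Λ], Group.FG Λ → SameFQ Λ (FreeGroup (Fin n)) →
      Projective 1 Λ ∧ LiftsKernels Λ ∧ LiftsPolycyclic Λ) := by
  have htfae : ∀ (Λ : Type) [Group Λ], Group.FG Λ →
      [Projective 1 Λ, LiftsKernels Λ, LiftsPolycyclic Λ].TFAE := by
    intro Λ _ hfg
    tfae_have 1 → 2 := by
      intro hP U B _ _ q hq hv hU φ
      obtain ⟨X, _, θ, hθ⟩ := Group.fg_iff_exists_freeGroup_hom_surjective_finite.1 hfg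
      exact lift_vpc hP θ hθ q hq hU hv φ
    tfae_have 2 → 3 := fun h U B _ _ q hq hv φ => h U B q hq (hv.sub _) (hv.quotRF q) φ
    tfae_have 3 → 1 := fun h G Q _ _ _ π hπ _ φ => h G Q π hπ (vpc_finite G) φ
    tfae_finish
  refine ⟨fun Λ _ h => htfae Λ h, ?_, ?_⟩
  · intro Λ _ hfg hrf
    have e1 : Projective 1 Λ ↔ LiftsKernels Λ := (htfae Λ hfg).out 0 1
    constructor
    · intro hP E _ q hq hv
      constructor
      · rintro ⟨s, hs⟩
        intro L _ hL
        have hs' : ∀ l, qlift q L hL ((QuotientGroup.mk' L).comp s l) = l := fun l =>
          DFunLike.congr_fun hs l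
        exact split_rf hrf (qlift q L hL) (hv.map _ (kerMap_surj q L hL))
          ((QuotientGroup.mk' L).comp s) hs'
      · intro hU
        exact e1.1 hP E Λ q hq hv hU (MonoidHom.id Λ)
    · intro h G Q _ _ _ π hπ _ φ
      let E : Subgroup (Λ × G) :=
        { carrier := {x | φ x.1 = π x.2}
          mul_mem' := by
            intro a b ha hb
            change φ (a.1 * b.1) = π (a.2 * b.2)
            rw [map_mul, map_mul, (show φ a.1 = π a.2 from ha), (show φ b.1 = π b.2 from hb)]
          one_mem' := by
            change φ 1 = π 1
            rw [map_one, map_one]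
          inv_mem' := by
            intro a ha
            change φ a.1⁻¹ = π a.2⁻¹
            rw [map_inv, map_inv, (show φ a.1 = π a.2 from ha)] }
      let q : E →* Λ := (MonoidHom.fst Λ G).comp E.subtype
      have hq : Surjective q := by
        intro l
        obtain ⟨g, hg⟩ := hπ (φ l)
        exact ⟨⟨(l, g), hg.symm⟩, rfl⟩
      have hker : Finite q.ker := by
        refine Finite.of_injective (β := G) (fun x => ((x : E) : Λ × G).2) ?_
        rintro ⟨⟨⟨a, b⟩, h1⟩, h2⟩ ⟨⟨⟨c, d⟩, h3⟩, h4⟩ hbd
        have ha : a = 1 := h2
        have hc : c = 1 := h4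
        have hbd' : b = d := hbd
        subst ha hc hbd'
        rfl
      have hE : Group.ResiduallyFinite E := inferInstance
      obtain ⟨s, hs⟩ := (h E q hq (vpc_finite _)).2 (by
        intro L _ hL
        have : Finite L := Finite.of_injective (Subgroup.inclusion hL)
          (Subgroup.inclusion_injective hL)
        exact rf_quot_finite hE L)
      refine ⟨((MonoidHom.snd Λ G).comp E.subtype).comp s, ?_⟩
      ext l
      have h1 : ((s l : E) : Λ × G).1 = l := DFunLike.congr_fun hs l
      have h2 : φ ((s l : E) : Λ × G).1 = π ((s l : E) : Λ × G).2 := (s l).2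
      rw [h1] at h2
      exact h2.symm
  · intro n Λ _ hfg h
    have hP : Projective 1 Λ := Projective.transfer hfg inferInstance h (projective_free 1)
    exact ⟨hP, ((htfae Λ hfg).out 0 1).1 hP, ((htfae Λ hfg).out 0 2).1 hP⟩

end Pool.Agent.Results.MP_305fdd_al.PolycyclicKernels
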