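import Mathlib
import Pool.Agent.H336.PR.IrrMore
import Pool.Agent.H336.PR.Fuchs

/-!
# Absolutely irreducible representations of the groups in the genus of a cocompact Fuchsian group

`MP_305fdd_al`, Q1, asks whether the lattices in `PSL(2, ℝ)` and `PSL(2, ℂ)` are profinitely rigid.
The cocompact lattices in `PSL(2, ℝ)` are the Fuchsian groups

`Γ = ⟨a_i, b_i, c_j | c_j ^ m_j, [a_1, b_1] ⋯ [a_g, b_g] c_1 ⋯ c_r⟩`.

Let `Λ` be a finitely generated group with the same finite quotients as `Γ`, and let `N` be divisible
by all primes which divide one of the periods `m_j` (`N = 1` for the groups of closed surfaces). We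
show that the absolutely irreducible locus of the representation schemes of `Λ` is smooth over
`ℤ[1/N]`: if `R → R'` is a surjective homomorphism of commutative rings with nilpotent kernel and `N`
is invertible in `R`, every homomorphism `φ : Λ → GL_n(R')` such that the matrices `φ(λ)` span
`M_n(R')` lifts to `GL_n(R)`, and to `SL_n(R)` if `φ` has values in `SL_n(R')` and `n` is invertible
in `R`. If `R` is `I`-adically complete, all such `φ : Λ → GL_n(R/I)` lift to `GL_n(R)`; for instance
absolutely irreducible representations over a perfect field of characteristic `p`, `p ∤ N`, lift to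
the ring of Witt vectors.

More generally, for arbitrary finitely generated groups this smoothness is a property of the
profinite completion, and it is enough to consider finite rings and ideals of square zero.

For the Fuchsian group itself the proof is a computation with the relator: if the generators are
multiplied by elements of an abelian normal subgroup `M` (conjugated, for `c_j`), the changes of the
value of the relator form a subgroup containing all commutators of `M` with the subgroup generated by
the generators (Fox calculus). The obstruction is therefore only in the coinvariants of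
`M = 1 + M_n(I)`, which is the determinant. For `Λ`, which need not be finitely presented or
residually finite, the lifting problem is an infinite system of linear equations over a finitely
generated ring, which has a solution because it has solutions modulo all ideals of finite index.
-/

namespace Pool.Agent.Results.MP_305fdd_al.SmoothIrreducibleLocus

open Function Pool.Agent.H336.PR

theorem result :
    -- for all finitely generated groups it is enough to consider finite rings
    (∀ (N : ℕ) (Λ : Type) [Group Λ], Group.FG Λ → (LiftsIrr N Λ ↔ SqFin N Λ)) ∧
    -- the property depends only on the finite quotients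
    (∀ (N : ℕ) (Λ Γ : Type) [Group Λ] [Group Γ], Group.FG Λ → Group.FG Γ → SameFQ Λ Γ →
      (LiftsIrr N Λ ↔ LiftsIrr N Γ)) ∧
    -- it holds for the groups with the same finite quotients as a cocompact Fuchsian group
    (∀ (g r : ℕ) (m : Fin r → ℕ) (N : ℕ), (∀ j, m j ≠ 0) →
      (∀ j, ∀ p : ℕ, p.Prime → p ∣ m j → p ∣ N) →
      ∀ (Λ : Type) [Group Λ], Group.FG Λ → SameFQ Λ (FuchsianGroup g r m) →
        LiftsIrr N Λ ∧ LiftsIrrSL N Λ ∧ LiftsIrrAdic N Λ) := by
  have h1 : ∀ (N : ℕ) (Λ : Type) [Group Λ], Group.FG Λ → (LiftsIrr N Λ ↔ SqFin N Λ) :=
    fun N Λ _ hfg => ⟨fun h => h.sqFin, fun h => h.liftsIrr hfg⟩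
  refine ⟨h1, ?_, ?_⟩
  · intro N Λ Γ _ _ hΛ hΓ h
    rw [h1 N Λ hΛ, h1 N Γ hΓ]
    exact ⟨fun hP => hP.transfer hΓ hΛ h.symm, fun hP => hP.transfer hΛ hΓ h⟩
  · intro g r m N hm hN Λ _ hΛ h
    have hΓ : Group.FG (FuchsianGroup g r m) :=
      Group.fg_of_surjective (PresentedGroup.mk_surjective (fuchsianRels g r m))
    have h2 : LiftsIrr N Λ :=
      ((sqFin_fuchsian g r m hm N hN).transfer hΛ hΓ h).liftsIrr hΛ
    exact ⟨h2, h2.sl, h2.adic⟩

end Pool.Agent.Results.MP_305fdd_al.SmoothIrreducibleLocus
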