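import Mathlib
import Pool.Agent.H336.PR.AlgNil
import Pool.Agent.H336.PR.SylowRed
import Pool.Agent.H336.PR.Transfer

/-!
# Smoothness of the representation schemes is a property of the profinite completion

`MP_305fdd_al`, Q1, asks whether the lattices in `PSL(2, ℝ)` and `PSL(2, ℂ)` are profinitely rigid.
The lattices in `PSL(2, ℝ)` which are not cocompact are free products of cyclic groups, for example
the free groups and `PSL(2, ℤ)`.

Let `Λ` be a finitely generated group and `N` a natural number. We show that the following are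
equivalent.

* `Projective N Λ`: homomorphisms of `Λ` to finite groups lift through the surjections of finite
  groups whose kernel has order prime to `N` (for `N = 1`: the profinite completion is projective).
* `LiftsAlgebras N Λ`: if `A` is an algebra over a commutative ring `R`, finitely generated as a
  module, in which `N` is invertible, and `A → B` is a surjective ring homomorphism with nilpotent
  kernel, all homomorphisms of `Λ` to `Bˣ` lift to `Aˣ`.
* `SmoothReps N Λ`: the schemes of the homomorphisms from `Λ` to `GL_n` are (formally) smooth over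
  `ℤ[1/N]`: homomorphisms to `GL_n(R')` lift to `GL_n(R)` if `R → R'` is a surjective homomorphism
  of commutative rings with nilpotent kernel and `N` is invertible in `R`.
* `LiftsTruncated p Λ` for all primes `p` which do not divide `N`: homomorphisms to
  `GL_n(𝔽_p[X]/(X²))` lift to `GL_n(𝔽_p[X]/(X³))`.

So these properties of the representations over arbitrary commutative rings depend only on the finite
quotients of `Λ`. If `Γ` is a free product of cyclic groups and `N` is divisible by the primes which
divide the orders of the finite factors, they hold for `Γ` and therefore for all finitely generated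
groups `Λ` with the same finite quotients as `Γ`; for free groups `Γ` this is true with `N = 1`.
-/

namespace Pool.Agent.Results.MP_305fdd_al.SmoothRepresentationSchemes

open Function Polynomial Pool.Agent.H336.PR

/-- Let `A` be a finitely generated module over a commutative ring `R` and an `R`-algebra in which
`N` is invertible. If `A → B` is a surjective ring homomorphism such that for some `k` all products
of `k` elements of its kernel vanish, then all homomorphisms of `Λ` to `Bˣ` lift to `Aˣ`. -/
def LiftsAlgebras (N : ℕ) (Λ : Type) [Group Λ] : Prop :=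
  ∀ (R A B : Type) [CommRing R] [Ring A] [Algebra R A] [Module.Finite R A] [Ring B] (f : A →+* B),
    Surjective f → IsUnit (N : A) → (∃ k, KerNil f k) → ∀ φ : Λ →* Bˣ, ∃ ψ : Λ →* Aˣ,
      (Units.map (f : A →* B)).comp ψ = φ

/-- The scheme of the homomorphisms from `Λ` to `GL_n` is (formally) smooth over `ℤ[1/N]`, for all
`n`. -/
def SmoothReps (N : ℕ) (Λ : Type) [Group Λ] : Prop :=
  ∀ (n : Type) [Fintype n] [DecidableEq n] (R R' : Type) [CommRing R] [CommRing R'] (f : R →+* R'),
    Surjective f → IsUnit (N : R) → IsNilpotent (RingHom.ker f) → ∀ φ : Λ →* GL n R',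
      ∃ ψ : Λ →* GL n R, (Matrix.GeneralLinearGroup.map f).comp ψ = φ

theorem entries_mem {n R : Type} [Fintype n] [DecidableEq n] [CommRing R] (I : Ideal R)
    (l : List (Matrix n n R)) (h : ∀ a ∈ l, ∀ i j, a i j ∈ I) :
    ∀ i j, l.prod i j ∈ I ^ l.length := by
  induction l with
  | nil => intro i j; simp
  | cons a l ih =>
    intro i j
    rw [List.prod_cons, List.length_cons, Matrix.mul_apply, pow_succ']
    refine Ideal.sum_mem _ fun k _ => ?_
    exact Ideal.mul_mem_mul (h a (by simp) i k)
      (ih (fun b hb => h b (List.mem_cons_of_mem _ hb)) k j)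

theorem smooth_of_algebras {N : ℕ} {Λ : Type} [Group Λ] (h : LiftsAlgebras N Λ) :
    SmoothReps N Λ := by
  intro n _ _ R R' _ _ f hf hN hnil φ
  obtain ⟨k, hk⟩ := hnil
  refine h R (Matrix n n R) (Matrix n n R') f.mapMatrix ?_ ?_ ⟨k, ?_⟩ φ
  · intro M
    choose g hg using hf
    refine ⟨M.map g, ?_⟩
    ext i j
    exact hg (M i j)
  · have := hN.map (algebraMap R (Matrix n n R))
    simpa using this
  · intro l hl hl0
    ext i j
    have h1 := entries_mem (RingHom.ker f) l (by
      intro a ha i j
      have := congrFun (congrFun (hl0 a ha) i) j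
      exact this) i j
    rw [hl, hk] at h1
    exact h1

theorem truncated_of_smooth {N : ℕ} {Λ : Type} [Group Λ] (h : SmoothReps N Λ) (p : ℕ)
    (hp : p.Prime) (hpN : ¬ p ∣ N) : LiftsTruncated p Λ := by
  intro n _ _ φ
  have : Fact p.Prime := ⟨hp⟩
  have hsurj : Surjective (Ideal.Quotient.factor (S := Ideal.span {(X : (ZMod p)[X]) ^ 3})
      (T := Ideal.span {(X : (ZMod p)[X]) ^ 2}) (by
        rw [Ideal.span_singleton_le_span_singleton]
        exact pow_dvd_pow X (by norm_num))) := Ideal.Quotient.factor_surjective _
  refine h n _ _ _ hsurj ?_ ?_ φ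
  · have h1 : IsUnit (N : ZMod p) :=
      (ZMod.isUnit_iff_coprime N p).2 ((Nat.Prime.coprime_iff_not_dvd hp).2 hpN).symm
    have := h1.map (algebraMap (ZMod p) ((ZMod p)[X] ⧸ Ideal.span {(X : (ZMod p)[X]) ^ 3}))
    simpa using this
  · refine ⟨2, ?_⟩
    rw [Ideal.zero_eq_bot, eq_bot_iff, sq, Ideal.mul_le]
    intro r hr s hs
    obtain ⟨P, rfl⟩ := Ideal.Quotient.mk_surjective r
    obtain ⟨Q, rfl⟩ := Ideal.Quotient.mk_surjective s
    have hP : X ^ 2 ∣ P := by
      rw [← Ideal.mem_span_singleton, ← Ideal.Quotient.eq_zero_iff_mem]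
      exact hr
    have hQ : X ^ 2 ∣ Q := by
      rw [← Ideal.mem_span_singleton, ← Ideal.Quotient.eq_zero_iff_mem]
      exact hs
    rw [Ideal.mem_bot, ← map_mul, Ideal.Quotient.eq_zero_iff_mem, Ideal.mem_span_singleton]
    exact (pow_dvd_pow X (by norm_num : 3 ≤ 2 + 2)).trans (by
      rw [pow_add]
      exact mul_dvd_mul hP hQ)

theorem result :
    -- equivalence of the lifting properties, for all finitely generated groups
    (∀ (N : ℕ) (Λ : Type) [Group Λ], Group.FG Λ →
      [Projective N Λ, LiftsAlgebras N Λ, SmoothReps N Λ,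
        ∀ p : ℕ, p.Prime → ¬ p ∣ N → LiftsTruncated p Λ].TFAE) ∧
    -- they depend only on the finite quotients
    (∀ (N : ℕ) (Λ Γ : Type) [Group Λ] [Group Γ], Group.FG Λ → Group.FG Γ → SameFQ Λ Γ →
      (SmoothReps N Λ ↔ SmoothReps N Γ)) ∧
    -- they hold for the groups with the same finite quotients as a free product of cyclic groups
    (∀ (ι : Type) [Finite ι] (m : ι → ℕ) (N : ℕ),
      (∀ i, m i ≠ 0 → ∀ p : ℕ, p.Prime → p ∣ m i → p ∣ N) →
      ∀ (Λ : Type) [Group Λ], Group.FG Λ →
        SameFQ Λ (Monoid.CoprodI fun i => Multiplicative (ZMod (m i))) →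
        LiftsAlgebras N Λ ∧ SmoothReps N Λ) := by
  have htfae : ∀ (N : ℕ) (Λ : Type) [Group Λ], Group.FG Λ →
      [Projective N Λ, LiftsAlgebras N Λ, SmoothReps N Λ,
        ∀ p : ℕ, p.Prime → ¬ p ∣ N → LiftsTruncated p Λ].TFAE := by
    intro N Λ _ hfg
    tfae_have 1 → 2 := by
      intro hP R A B _ _ _ _ _ f hf hN hk φ
      obtain ⟨k, hk⟩ := hk
      exact lift_alg hfg hP R A B hN f hf k hk φ
    tfae_have 2 → 3 := smooth_of_algebras
    tfae_have 3 → 4 := fun h p hp hpN => truncated_of_smooth h p hp hpN
    tfae_have 4 → 1 := projective_of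
    tfae_finish
  refine ⟨fun N Λ _ h => htfae N Λ h, ?_, ?_⟩
  · intro N Λ Γ _ _ hΛ hΓ h
    have e1 : Projective N Λ ↔ SmoothReps N Λ := (htfae N Λ hΛ).out 0 2
    have e2 : Projective N Γ ↔ SmoothReps N Γ := (htfae N Γ hΓ).out 0 2
    rw [← e1, ← e2]
    exact ⟨fun hP => hP.transfer hΓ hΛ h.symm, fun hP => hP.transfer hΛ hΓ h⟩
  · intro ι _ m N hN Λ _ hΛ h
    have hΓ : Group.FG (Monoid.CoprodI fun i => Multiplicative (ZMod (m i))) := by
      let F : FreeGroup ι →* Monoid.CoprodI fun i => Multiplicative (ZMod (m i)) :=
        FreeGroup.lift fun i => Monoid.CoprodI.of (Multiplicative.ofAdd (1 : ZMod (m i)))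
      have hF : Surjective F := by
        intro x
        induction x using Monoid.CoprodI.induction_on with
        | one => exact ⟨1, map_one F⟩
        | of i x =>
          obtain ⟨k, hk⟩ := ZMod.intCast_surjective x.toAdd
          have hx : x = (Multiplicative.ofAdd (1 : ZMod (m i))) ^ k := by
            rw [← ofAdd_zsmul, zsmul_one, hk]
            rfl
          refine ⟨FreeGroup.of i ^ k, ?_⟩
          rw [map_zpow, hx, map_zpow]
          simp [F]
        | mul x y hx hy =>
          obtain ⟨u, rfl⟩ := hx
          obtain ⟨v, rfl⟩ := hy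
          exact ⟨u * v, map_mul F u v⟩
      exact Group.fg_of_surjective hF
    have hP : Projective N Λ := Projective.transfer hΛ hΓ h
      (projective_coprodI N _ fun i => projective_cyc (m i) N (hN i))
    exact ⟨((htfae N Λ hΛ).out 0 1).1 hP, ((htfae N Λ hΛ).out 0 2).1 hP⟩

end Pool.Agent.Results.MP_305fdd_al.SmoothRepresentationSchemes
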