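import Mathlib
import Pool.Agent.H336.TA.Final

/-!
# The Tits alternative in the genus of a lattice in `PSL(2, ℝ)`

`MP_305fdd_al`, Q1, asks whether the lattices `Γ` in `PSL(2, ℝ)` and `PSL(2, ℂ)` are profinitely
rigid. A lattice in `PSL(2, ℝ)` has a subgroup `Γ₀` of finite index which is a free group of rank at
least two or the fundamental group of a closed orientable surface of genus at least two. Let `Λ` be
a finitely generated residually finite group with the same finite quotients as `Γ`. We show that `Λ`
has a torsion-free normal subgroup `Λ₁` of finite index (`Λ₁ = Λ` if `Γ₀ = Γ`) such that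

* every subgroup of `Λ₁` contains a free group of rank two or is metabelian, and in the second case
  all Sylow subgroups of its images in the finite quotients of `Λ` are cyclic;
* every nontrivial normal subgroup of `Λ₁` contains a free group of rank two.

Consequently all infinite normal subgroups of `Λ` contain free groups of rank two (in particular the
amenable radical of `Λ` is finite), and all torsion subgroups of `Λ` are finite of order at most
`[Λ : Λ₁]`.

Steps of the proof. (1) *Extension property.* Let `U ≤ Γ₀` be a subgroup of finite index, `x, y ∈ U`,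
and let `P → P'` be a central extension of finite groups with kernel of order `p`. Every homomorphism
`U → P'` lifts to `P` after restriction to a subgroup of index at most `p` containing `x` and `y`.
For free groups this is the Nielsen-Schreier theorem. For surface groups we choose the kernel `U'` of
a nontrivial homomorphism `U → ℤ/p` which kills `x` and `y` (it exists, as the genus of `U` is at
least two), and use the induced homomorphisms to the wreath product of `P` with the permutations of
`Γ/U'`, in which the value of the relator can be corrected: only the product of its `[Γ : U']`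
components is an obstruction, and it is a `p`-th power.
(2) The property involves only finitely many homomorphisms to finite groups at a time and is therefore
inherited by `Λ`. (3) If two elements `x, y` of a subgroup `U ≤ Λ₁` of finite index have independent
images in the Frattini quotient of a finite `p`-group quotient of `U`, they are a basis of a free
group: lift to large finite two-generator `p`-groups. So if `H ≤ Λ₁` contains no free group of rank
two, the Sylow subgroups of its finite images are cyclic, and these are metabelian.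
(4) Counting homomorphisms of the subgroups of finite index to `ℤ/p` excludes normal subgroups all of
whose images are cyclic.
-/

namespace Pool.Agent.Results.MP_305fdd_al.TitsAlternative

open Function Pool.Agent.H336.PR Pool.Agent.H336.TA
open scoped commutatorElement

/-- `H` contains a free group of rank two. -/
def HasFree {Λ : Type} [Group Λ] (H : Subgroup Λ) : Prop :=
  ∃ x ∈ H, ∃ y ∈ H, Injective (FreeGroup.lift ![x, y])

theorem result (Γ Λ : Type) [Group Γ] [Group Λ] (hΓ : Group.FG Γ) (hΛ : Group.FG Λ)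
    (Γ₀ : Subgroup Γ) (hi : Γ₀.index ≠ 0)
    (h0 : (∃ n : ℕ, Nonempty (Γ₀ ≃* FreeGroup (Fin (n + 2)))) ∨
      ∃ g : ℕ, 2 ≤ g ∧ Nonempty (Γ₀ ≃* SurfaceGroup g))
    (hrf : RFin Λ) (h : SameFQ Λ Γ) :
    ∃ Λ₁ : Subgroup Λ, Λ₁.Normal ∧ Λ₁.FiniteIndex ∧ (Γ₀ = ⊤ → Λ₁ = ⊤) ∧
      -- `Λ₁` is torsion-free
      (∀ x ∈ Λ₁, ∀ k : ℕ, k ≠ 0 → x ^ k = 1 → x = 1) ∧
      -- the Tits alternative
      (∀ H : Subgroup Λ, H ≤ Λ₁ → HasFree H ∨ (⁅⁅H, H⁆, ⁅H, H⁆⁆ = ⊥ ∧
        ∀ (Q : Type) [Group Q] [Finite Q] (φ : Λ →* Q), IsZGroup (H.map φ))) ∧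
      -- nontrivial normal subgroups of `Λ₁` contain free groups
      (∀ N : Subgroup Λ, N ≤ Λ₁ → (∀ g ∈ Λ₁, ∀ x ∈ N, g * x * g⁻¹ ∈ N) → N ≠ ⊥ → HasFree N) ∧
      -- infinite normal subgroups of `Λ` contain free groups
      (∀ N : Subgroup Λ, N.Normal → Infinite N → HasFree N) ∧
      -- torsion subgroups are finite of bounded order
      (∀ H : Subgroup Λ, (∀ x ∈ H, IsOfFinOrder x) → Finite H ∧ Nat.card H ≤ Λ₁.index) := by
  obtain ⟨Λ₁, hn, hfi, htop, hEP, hHB⟩ := exists_sub Γ Λ hΓ hΛ Γ₀ hi h0 h
  have htf : ∀ x ∈ Λ₁, ∀ k : ℕ, k ≠ 0 → x ^ k = 1 → x = 1 :=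
    fun x hx k hk hxk => torsionFree hrf hEP x hx k hk hxk
  have hnf : ∀ N : Subgroup Λ, N ≤ Λ₁ → (∀ g ∈ Λ₁, ∀ x ∈ N, g * x * g⁻¹ ∈ N) → N ≠ ⊥ →
      HasFree N := fun N hN1 hN2 hN3 => normal_free hrf hEP hHB N hN1 hN2 hN3
  have hfinL : Finite (Λ ⧸ Λ₁) := Subgroup.finite_quotient_of_finiteIndex
  have hinj : ∀ H : Subgroup Λ, (∀ x ∈ H, x ∈ Λ₁ → x = 1) →
      Injective (fun x : H => ((x : Λ) : Λ ⧸ Λ₁)) := by
    intro H hH x y hxy
    have h1 : (x : Λ)⁻¹ * y ∈ Λ₁ := QuotientGroup.eq.1 hxy
    have h2 := hH _ (H.mul_mem (H.inv_mem x.2) y.2) h1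
    exact Subtype.ext (inv_mul_eq_one.1 h2)
  refine ⟨Λ₁, hn, hfi, htop, htf, ?_, hnf, ?_, ?_⟩
  · intro H hH
    by_cases hF : HasFree H
    · exact Or.inl hF
    · right
      have hF' : ∀ x ∈ H, ∀ y ∈ H, ¬ Injective (FreeGroup.lift ![x, y]) :=
        fun x hx y hy hc => hF ⟨x, hx, y, hy, hc⟩
      exact ⟨metabelian hrf hEP H hH hF', fun Q _ _ φ => zgroup hEP H hH hF' Q φ⟩
  · intro N hN hinf
    obtain ⟨x, hx, y, hy, hxy⟩ := hnf (N ⊓ Λ₁) inf_le_right
      (fun g hg x hx => ⟨hN.conj_mem x hx.1 g, hn.conj_mem x hx.2 g⟩) (by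
        intro hbot
        have h1 : Injective (fun x : N => ((x : Λ) : Λ ⧸ Λ₁)) := by
          apply hinj
          intro x hx hx1
          have : x ∈ N ⊓ Λ₁ := ⟨hx, hx1⟩
          rwa [hbot, Subgroup.mem_bot] at this
        have := Finite.of_injective _ h1
        exact not_finite N)
    exact ⟨x, hx.1, y, hy.1, hxy⟩
  · intro H hH
    have h1 : Injective (fun x : H => ((x : Λ) : Λ ⧸ Λ₁)) := by
      apply hinj
      intro x hx hx1
      obtain ⟨k, hk, hxk⟩ := isOfFinOrder_iff_pow_eq_one.1 (hH x hx)
      exact htf x hx1 k hk.ne' hxk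
    exact ⟨Finite.of_injective _ h1, Nat.card_le_card_of_injective _ h1⟩

end Pool.Agent.Results.MP_305fdd_al.TitsAlternative
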